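import Pool.Agent.H4.StarM

set_option autoImplicit false

namespace Pool.Agent.Results.MP_bb681f_co.Max

open SimpleGraph Finset Pool.Agent.H4.StarM
open scoped Classical

section
variable {V : Type} [Fintype V] {G : SimpleGraph V} {l : ℝ}

lemma sum_sub (p : V → Prop) [Fintype {u | p u}] (y : V → ℝ) (hy : ∀ v, ¬ p v → y v = 0) :
    ∑ v : {u | p u}, y v = ∑ v, y v := by
  rw [← Finset.sum_subset (subset_univ (univ.filter p)) (fun w _ hw => hy w (by simpa using hw))]
  rw [Finset.sum_subtype (p := fun u => u ∈ {u | p u}) (univ.filter p) (by simp)]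

lemma main_of (p : V → Prop) [Fintype {u | p u}] (y : V → ℝ) (hy : ∀ v, ¬ p v → y v = 0)
    (h : ∀ v, p v → ∑ w, a G v w * y w = l * y v) (hs : ∑ v, y v ≠ 0) :
    IsMain (G.induce {u | p u}) l :=
  ⟨_, (mem_induce p y hy).2 h, by rwa [sum_sub p y hy]⟩

lemma bot_of (p : V → Prop) [Fintype {u | p u}]
    (h : ∀ y : V → ℝ, (∀ v, ¬ p v → y v = 0) → (∀ v, p v → ∑ w, a G v w * y w = l * y v) →
      ∀ v, p v → y v = 0) : eigsp (G.induce {u | p u}) l = ⊥ := by
  rw [eq_bot_iff]
  intro x hx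
  let y : V → ℝ := fun v => if h : p v then x ⟨v, h⟩ else 0
  have hy : ∀ v, ¬ p v → y v = 0 := fun v hv => dif_neg hv
  have e : x = fun v : {u | p u} => y v := funext fun v => by
    have hv : p v := v.2
    simp only [y, dif_pos hv]
  rw [e] at hx ⊢
  exact (Submodule.mem_bot ℝ).2 (funext fun v => h y hy ((mem_induce p y hy).1 hx) v v.2)

lemma star_of (X : Finset V) (hc : X.card = Module.finrank ℝ (eigsp G l))
    (h : ∀ y : V → ℝ, (∀ v, ¬ v ∉ X → y v = 0) → (∀ v, v ∉ X → ∑ w, a G v w * y w = l * y v) →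
      ∀ v, v ∉ X → y v = 0) : StarSet G l X :=
  ⟨hc, bot_of (fun u => u ∉ X) h⟩

lemma mainV_eq (X : Finset V) (h : ∀ v ∈ X, ∃ y : V → ℝ, (∀ u, ¬ (u ∉ X ∨ u = v) → y u = 0) ∧
    (∀ u, ∑ w, a G u w * y w = l * y u) ∧ ∑ u, y u ≠ 0) : mainV G l X = X := by
  unfold mainV
  rw [filter_true_of_mem]
  intro v hv
  obtain ⟨y, h1, h2, h3⟩ := h v hv
  exact main_of (fun u => u ∉ X ∨ u = v) y h1 (fun u _ => h2 u) h3

end

/-- the path on five vertices with its middle vertex blown up -/
def blow (m : ℕ) : SimpleGraph (Fin 4 ⊕ Fin m) where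
  Adj
    | .inl i, .inl j => (i = 0 ∧ j = 1) ∨ (i = 1 ∧ j = 0) ∨ (i = 2 ∧ j = 3) ∨ (i = 3 ∧ j = 2)
    | .inl i, .inr _ => i = 1 ∨ i = 2
    | .inr _, .inl i => i = 1 ∨ i = 2
    | .inr _, .inr _ => False
  symm := ⟨by rintro (i | i) (j | j) <;> simp <;> tauto⟩
  loopless := ⟨by rintro (i | i) <;> simp; omega⟩

/-- kernel vectors -/
noncomputable def kv (m : ℕ) : (Fin m → ℝ) →ₗ[ℝ] (Fin 4 ⊕ Fin m → ℝ) where
  toFun y := Sum.elim ![-∑ c, y c, 0, 0, -∑ c, y c] y
  map_add' y z := by
    ext (i | i)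
    · fin_cases i <;> simp [sum_add_distrib, add_comm]
    · simp
  map_smul' c y := by
    ext (i | i)
    · fin_cases i <;> simp [mul_sum]
    · simp

lemma kv_eq (m : ℕ) (y : Fin m → ℝ) (v : Fin 4 ⊕ Fin m) :
    ∑ w, a (blow m) v w * kv m y w = 0 * kv m y v := by
  rcases v with i | i
  · fin_cases i <;> simp [a, blow, kv, Fin.sum_univ_four]
  · simp [a, blow, kv, Fin.sum_univ_four]

lemma kv_sum (m : ℕ) (c : Fin m) : ∑ v, kv m (Pi.single c 1) v ≠ 0 := by
  simp [kv, Fin.sum_univ_four]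

lemma blow_conn (m : ℕ) (c : Fin m) : (blow m).Connected := by
  have h1 : (blow m).Reachable (.inr c) (.inl 1) := Adj.reachable (by simp [blow])
  have h2 : (blow m).Reachable (.inr c) (.inl 2) := Adj.reachable (by simp [blow])
  refine (connected_iff_exists_forall_reachable _).2 ⟨.inr c, ?_⟩
  rintro (i | i)
  · fin_cases i
    · exact h1.trans (Adj.reachable (by simp [blow]))
    · exact h1
    · exact h2
    · exact h2.trans (Adj.reachable (by simp [blow]))
  · exact h1.trans (Adj.reachable (by simp [blow]))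

/-- The set of values `|main(X)|` over connected graphs of order `n`. -/
def vals (n : ℕ) : Set ℕ :=
  {k | ∃ (V : Type) (_ : Fintype V) (G : SimpleGraph V) (l : ℝ) (X : Finset V),
    Fintype.card V = n ∧ G.Connected ∧ IsMain G l ∧ StarSet G l X ∧ k = (mainV G l X).card}

lemma big (m : ℕ) (hm : 1 ≤ m) : m ∈ vals (m + 4) := by
  let c : Fin m := ⟨0, hm⟩
  have hmain : IsMain (blow m) 0 := ⟨_, mem_eigsp.2 (kv_eq m _), kv_sum m c⟩
  refine ⟨Fin 4 ⊕ Fin m, inferInstance, blow m, 0, univ.map Function.Embedding.inr,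
    by simp [add_comm], blow_conn m c, hmain, star_of _ ?_ ?_, ?_⟩
  · have h1 := upper (blow_conn m c) hmain
    have h2 : Function.Injective (kv m) := fun y z h => funext fun i => congrFun h (.inr i)
    have h3 : LinearMap.range (kv m) ≤ eigsp (blow m) 0 := by
      rintro _ ⟨y, rfl⟩; exact mem_eigsp.2 (kv_eq m y)
    have h4 := Submodule.finrank_mono h3
    rw [LinearMap.finrank_range_of_inj h2] at h4
    simp only [Module.finrank_fintype_fun_eq_card, Fintype.card_fin, Fintype.card_sum] at h1 h4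
    simp only [card_map, card_univ, Fintype.card_fin]
    omega
  · intro y hy h
    have hz : ∀ i, y (.inr i) = 0 := fun i => hy _ (by simp)
    have h0 := h (.inl 0) (by simp)
    have h1 := h (.inl 1) (by simp)
    have h2 := h (.inl 2) (by simp)
    have h3 := h (.inl 3) (by simp)
    simp [a, blow, Fin.sum_univ_four, hz] at h0 h1 h2 h3
    rintro (i | i) _
    · fin_cases i <;> assumption
    · exact hz i
  · rw [mainV_eq]
    · simp
    intro v hv
    obtain ⟨i, -, rfl⟩ := mem_map.1 hv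
    refine ⟨kv m (Pi.single i 1), ?_, kv_eq m _, kv_sum m i⟩
    rintro (j | j) hj
    · simp at hj
    · have : j ≠ i := by simpa using hj
      simp [kv, this]

lemma top_sum (n : ℕ) (y : Fin (n + 1) → ℝ) (v : Fin (n + 1)) :
    ∑ w, a ⊤ v w * y w = ∑ w, y w - y v := by
  rw [eq_sub_iff_add_eq, ← sum_ite_eq_of_mem univ v y (mem_univ v), ← sum_add_distrib]
  refine sum_congr rfl fun w _ => ?_
  by_cases h : v = w <;> simp [a, h]

lemma small (n : ℕ) (hn : n ≤ 3) : 1 ∈ vals (n + 1) := by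
  have hone : ∀ v : Fin (n + 1), ∑ w, a ⊤ v w * (fun _ => (1 : ℝ)) w = n * (fun _ => (1 : ℝ)) v := by
    intro v; rw [top_sum]; simp
  have hs : ∑ v : Fin (n + 1), (fun _ => (1 : ℝ)) v ≠ 0 := by simp; positivity
  have hmain : IsMain (⊤ : SimpleGraph (Fin (n + 1))) n := ⟨_, mem_eigsp.2 hone, hs⟩
  refine ⟨Fin (n + 1), inferInstance, ⊤, n, {0}, by simp, connected_top, hmain, star_of _ ?_ ?_, ?_⟩
  · have h1 := upper (G := ⊤) connected_top hmain
    have h2 : Module.finrank ℝ (eigsp (⊤ : SimpleGraph (Fin (n + 1))) n) ≠ 0 := by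
      rw [Ne, Submodule.finrank_eq_zero]
      intro h
      have := mem_eigsp.2 hone
      rw [h, Submodule.mem_bot] at this
      simpa using congrFun this 0
    simp only [Fintype.card_fin, card_singleton] at h1 ⊢
    omega
  · intro y hy h
    have h0 : y 0 = 0 := hy 0 (by simp)
    have h1 : ∀ v : Fin n, ∑ w, y w = (n + 1) * y v.succ := by
      intro v
      have := h v.succ (by simp)
      rw [top_sum] at this
      linarith
    have h2 : ∑ v : Fin n, ∑ w, y w = (n + 1) * ∑ w, y w := by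
      rw [sum_congr rfl (fun v _ => h1 v), ← mul_sum, Fin.sum_univ_succ, h0, zero_add]
    simp only [sum_const, card_univ, Fintype.card_fin, nsmul_eq_mul] at h2
    have h3 : ∑ w, y w = 0 := by linarith
    intro v hv
    have := h v hv
    rw [top_sum, h3] at this
    have h4 : (n + 1 : ℝ) * y v = 0 := by linarith
    exact (mul_eq_zero.1 h4).resolve_left (by positivity)
  · rw [mainV_eq]
    · simp
    intro v hv
    obtain rfl := mem_singleton.1 hv
    exact ⟨fun _ => 1, fun v hv => by simp at hv, hone, hs⟩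

/-- `M(n) = max(1, n - 4)` for every `n ≥ 1`. -/
theorem result : ∀ n : ℕ, 1 ≤ n → IsGreatest (vals n) (max 1 (n - 4)) := by
  intro n hn
  constructor
  · by_cases h : n ≤ 4
    · obtain ⟨m, rfl⟩ : ∃ m, n = m + 1 := ⟨n - 1, by omega⟩
      rw [max_eq_left (by omega)]
      exact small m (by omega)
    · obtain ⟨m, rfl⟩ : ∃ m, n = m + 4 := ⟨n - 4, by omega⟩
      rw [max_eq_right (by omega), Nat.add_sub_cancel]
      exact big m (by omega)
  · rintro k ⟨V, _, G, l, X, rfl, hG, hm, hX, rfl⟩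
    exact (card_filter_le _ _).trans (hX.1 ▸ upper hG hm)

end Pool.Agent.Results.MP_bb681f_co.Max
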